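import Pool.Agent.H905Z.SBCGen.B7
import Pool.Agent.H247Z.SBC.Good

set_option autoImplicit false

open Pool.Agent.H905Z.B7 in
theorem Pool.Agent.Results.MP_b7f0d9_co.AMatchingRule.result :
    ∃ (K : ℕ) (shape : Fin K → Set E3) (r : ℝ) (𝒜 : Set (Set (Tile K))),
      (∀ t, IsProto (shape t)) ∧ 0 < r ∧ 𝒜.Finite ∧ (∀ A ∈ 𝒜, IsPatch shape A) ∧
      (∃ P, IsTiling shape P ∧ Legal shape r 𝒜 P) ∧
      (∀ P, IsTiling shape P → Legal shape r 𝒜 P → ∀ v : E3, v ≠ 0 → shift v P ≠ P) ∧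
      ∃ d c : Fin K → ℝ,
        (∀ P, IsTiling shape P → Legal shape r 𝒜 P → Bounded shape d c P) ∧
        (∀ P, IsPatch shape P → Legal shape r 𝒜 P → Bounded shape d c P) := by
  obtain ⟨K, R, h⟩ := Pool.Agent.H247Z.SBC.good
  exact genB7 R h
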